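import Pool.Agent.K3h5.IB.Stm

/-!
# Iterated biased random walks: the hitting times of the cut vertices
-/

set_option autoImplicit false
set_option linter.all false

namespace Pool.Agent.K3h99.IB

open Pool.Agent.K3h5.IB

variable {d : ℕ}

/-- a discrete crossing lemma -/
theorem crossing (P : ℕ → Prop) {T : ℕ} (h0 : P 0) (hT : ¬ P T) : ∃ n < T, P n ∧ ¬ P (n + 1) := by
  induction T with
  | zero => exact absurd h0 hT
  | succ T ih =>
    by_cases h : P T
    · exact ⟨T, Nat.lt_succ_self _, h, hT⟩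
    · obtain ⟨n, hn, h1, h2⟩ := ih h
      exact ⟨n, by omega, h1, h2⟩

theorem visits_mono (y : ℕ → V d) (B : Set (V d)) {T T' : ℕ} (h : T ≤ T') :
    visits y B T ≤ visits y B T' := by
  classical
  unfold visits
  apply Finset.card_le_card
  intro n hn
  rw [Finset.mem_filter, Finset.mem_range] at hn ⊢
  exact ⟨by omega, hn.2⟩

theorem t_HIT : S_ROUTE → S_FAIR → S_CUTG → S_NICE → S_CROSS → S_IND → S_HIT := by
  intro _ _ hCUTG _ hCROSS hIND d δ x hx
  classical
  have hN := (hIND d δ x hx).2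
  obtain ⟨hy0, hD, hstep, hvis, hcr⟩ := hCROSS d δ x hx _ hN 0 (YY x) rfl
  obtain ⟨-, -, hcut, hmono, hct, hsurj, -⟩ := hCUTG d δ x hx
  -- the height of the starting point
  have h00 : ∀ c, Cut δ x c → ht δ (YY x 0) ≤ ht δ (path0 x c) := by
    intro c hc
    have h1 := hc.1 0 (Nat.zero_le _)
    have h2 : path0 x 0 = (0 : V d) := by simp [path0]
    rw [hy0, ← h2]
    exact h1
  -- before the walk is above the cut it visits the cut vertex
  have hbef : ∀ c, Cut δ x c → ∀ T, ht δ (path0 x c) < ht δ (YY x T) →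
      ∃ n < T, YY x n = path0 x c := by
    intro c hc T hT
    obtain ⟨n, hn, h1, h2⟩ := crossing (fun n => ht δ (YY x n) ≤ ht δ (path0 x c)) (T := T)
      (h00 c hc) (not_le.2 hT)
    exact ⟨n, hn, ((hcr c hc).2.1 n h1 (not_le.1 h2)).1⟩
  have hmem : ∀ m, YY x (hit δ x m) = path0 x (ct δ x m) := by
    intro m
    obtain ⟨n, hn, -⟩ := (hcr _ (hct m)).2.2.1
    exact Nat.sInf_mem (s := {n | YY x n = path0 x (ct δ x m)}) ⟨n, hn⟩
  have hle : ∀ m n, YY x n = path0 x (ct δ x m) → hit δ x m ≤ n := fun m n h => Nat.sInf_le h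
  have hhit : StrictMono (hit δ x) := by
    apply strictMono_nat_of_lt_succ
    intro m
    have h1 : ht δ (path0 x (ct δ x m)) < ht δ (YY x (hit δ x (m + 1))) := by
      rw [hmem]
      exact (hct m).2 _ (hmono (Nat.lt_succ_self m))
    obtain ⟨n, hn, h2⟩ := hbef _ (hct m) _ h1
    exact lt_of_le_of_lt (hle m n h2) hn
  refine ⟨hhit, hmem, ?_, ?_, ?_, ?_⟩
  · intro m n hn
    have h1 : ht δ (YY x n) ≤ ht δ (path0 x (ct δ x (m + 1))) := by
      by_contra h
      obtain ⟨n', hn', h2⟩ := hbef _ (hct (m + 1)) n (not_le.1 h)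
      have := hle (m + 1) n' h2
      omega
    obtain ⟨e, he, -⟩ := hstep n
    exact (hcut _ (hct (m + 1))).2.1 _ e (hN.sub he) h1
  · intro n
    obtain ⟨e, -, he⟩ := hstep n
    exact ⟨e, he⟩
  · intro K _
    exact visits_mono _ _ (hhit.monotone (Nat.le_succ K))
  · intro h0
    have hc0 : ct δ x 0 = 0 := by
      obtain ⟨m, hm⟩ := hsurj 0 h0
      have h1 : m ≤ ct δ x m := hmono.le_apply
      have h2 : m = 0 := by omega
      rw [h2] at hm
      exact hm
    have hc1 : 0 < ct δ x 1 := by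
      have := hmono (Nat.zero_lt_one)
      omega
    unfold LK visits
    rw [Nat.one_le_iff_ne_zero, Finset.card_ne_zero]
    refine ⟨hit δ x 1, ?_⟩
    rw [Finset.mem_filter, Finset.mem_range]
    exact ⟨hhit (by norm_num), ct δ x 1, hc1, le_rfl, (hmem 1).symm⟩

end Pool.Agent.K3h99.IB
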